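import Pool.Agent.Helper99_Eng3.Stmts

/-!
# Squad ENG, part 3: module OHYP.
-/

set_option autoImplicit false

namespace Pool.Agent.Eng.H37

/-- OHYP. -/
theorem ohyp (h : OhybStmt) : OhypStmt := by
  intro F V K _ _ _ _ _ _ _ _ Q W hND hW hs
  obtain ⟨ι, hι⟩ := h F V Q (Module.finrank F K) W hND hW hs
  let β : Module.Basis (Fin (Module.finrank F K)) F K := Module.finBasis F K
  let A : K →ₗ[F] (Fin (Module.finrank F K) → F) := β.equivFun.toLinearMap
  let B : K →ₗ[F] (Fin (Module.finrank F K) → F) :=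
    LinearMap.pi fun i => (Algebra.traceForm F K) (β i)
  refine ⟨ι ∘ₗ (LinearMap.prodMap A B), fun a b => ?_⟩
  have h1 : (ι ∘ₗ (LinearMap.prodMap A B)) (a, b) = ι (A a, B b) := rfl
  rw [h1, hι]
  have h2 : ∀ i, A a i * B b i = Algebra.trace F K ((β.equivFun a i • β i) * b) := by
    intro i
    have : B b i = Algebra.trace F K (β i * b) := rfl
    rw [this, smul_mul_assoc, map_smul, smul_eq_mul]
    rfl
  rw [Finset.sum_congr rfl fun i _ => h2 i, ← map_sum, ← Finset.sum_mul, β.sum_equivFun]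

end Pool.Agent.Eng.H37
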