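import Pool.Agent.Helper99_Eng3.Stmts

/-!
# Squad ENG, part 3: module OLAM.
-/

set_option autoImplicit false

namespace Pool.Agent.Eng.H37

open scoped commutatorElement

set_option linter.unusedSectionVars false

section
variable (F K : Type) [Field F] [Field K] [Algebra F K] [FiniteDimensional F K]

/-- the form `Tr(ab)` on `K × K`. -/
noncomputable def PP : QuadraticForm F (K × K) :=
  (LinearMap.BilinMap.toQuadraticMap
    ((Algebra.traceForm F K).compl₁₂ (LinearMap.fst F K K) (LinearMap.snd F K K)))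

theorem PP_apply (a b : K) : PP F K (a, b) = Algebra.trace F K (a * b) := rfl

theorem PP_polar (u v : K × K) : QuadraticMap.polar (PP F K) u v
    = Algebra.trace F K (u.1 * v.2) + Algebra.trace F K (v.1 * u.2) := by
  obtain ⟨a, b⟩ := u
  obtain ⟨c, d⟩ := v
  unfold QuadraticMap.polar
  rw [Prod.mk_add_mk, PP_apply, PP_apply, PP_apply]
  have : (a + c) * (b + d) = a * b + c * d + a * d + c * b := by ring
  rw [this, map_add, map_add, map_add]
  ring

theorem PP_ND [Finite F] : ND (PP F K) := by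
  intro u hu
  have hn := traceForm_nondegenerate F K
  have h1 : ∀ x : K, (∀ y : K, Algebra.trace F K (x * y) = 0) → x = 0 := by
    intro x hx
    exact hn.1 x hx
  obtain ⟨a, b⟩ := u
  have ha : a = 0 := by
    refine h1 a fun y => ?_
    have := hu (0, y)
    rw [PP_polar] at this
    simpa using this
  have hb : b = 0 := by
    refine h1 b fun y => ?_
    have := hu (y, 0)
    rw [PP_polar] at this
    simpa [mul_comm] using this
  rw [ha, hb]
  rfl

end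

section
variable {F K : Type} [Field F] [Field K] [Algebra F K] [FiniteDimensional F K]

/-- `A_c(b) = c σ(b) - σ⁻¹(c b)`. -/
noncomputable def Ac (σ : K ≃ₐ[F] K) (c : K) : K →ₗ[F] K :=
  (LinearMap.mulLeft F c) ∘ₗ σ.toLinearMap - σ.symm.toLinearMap ∘ₗ (LinearMap.mulLeft F c)

theorem Ac_apply (σ : K ≃ₐ[F] K) (c b : K) : Ac σ c b = c * σ b - σ.symm (c * b) := rfl

/-- `g_c`. -/
noncomputable def gc (σ : K ≃ₐ[F] K) (c : K) : (K × K) ≃ₗ[F] (K × K) where
  toFun v := (v.1 + Ac σ c v.2, v.2)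
  invFun v := (v.1 - Ac σ c v.2, v.2)
  left_inv v := by simp
  right_inv v := by simp
  map_add' u v := by
    simp only [Prod.fst_add, Prod.snd_add, map_add, Prod.mk_add_mk]
    congr 1
    abel
  map_smul' a v := by
    simp only [Prod.smul_fst, Prod.smul_snd, map_smul, RingHom.id_apply, Prod.smul_mk, smul_add]

theorem gc_apply (σ : K ≃ₐ[F] K) (c : K) (v : K × K) :
    gc σ c v = (v.1 + Ac σ c v.2, v.2) := rfl

theorem gc_mul (σ : K ≃ₐ[F] K) (c c' : K) : gc σ c * gc σ c' = gc σ (c + c') := by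
  apply LinearEquiv.ext
  intro v
  change gc σ c (gc σ c' v) = _
  rw [gc_apply, gc_apply, gc_apply]
  simp only [Ac_apply, add_mul, map_add]
  congr 1
  ring

theorem gc_zero (σ : K ≃ₐ[F] K) : gc σ 0 = 1 := by
  apply LinearEquiv.ext
  intro v
  rw [gc_apply, Ac_apply]
  simp

theorem gc_inv (σ : K ≃ₐ[F] K) (c : K) : (gc σ c)⁻¹ = gc σ (-c) := by
  rw [inv_eq_iff_mul_eq_one, gc_mul, add_neg_cancel, gc_zero]

theorem trace_Ac (σ : K ≃ₐ[F] K) (c b : K) : Algebra.trace F K (Ac σ c b * b) = 0 := by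
  rw [Ac_apply, sub_mul, map_sub]
  have h1 : Algebra.trace F K (σ.symm (c * b) * b) = Algebra.trace F K (σ (σ.symm (c * b) * b)) :=
    (Algebra.trace_eq_of_algEquiv σ _).symm
  rw [h1, map_mul σ, AlgEquiv.apply_symm_apply]
  have : c * σ b * b = c * b * σ b := by ring
  rw [this, sub_self]

theorem gc_mem (σ : K ≃ₐ[F] K) (c : K) : gc σ c ∈ OV (PP F K) := by
  intro v
  obtain ⟨a, b⟩ := v
  rw [gc_apply, PP_apply, PP_apply, add_mul, map_add, trace_Ac, add_zero]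

/-- multiplication by `ρ` and `ρ⁻¹`. -/
noncomputable def gr (ρ : Kˣ) : (K × K) ≃ₗ[F] (K × K) where
  toFun v := (ρ * v.1, (ρ⁻¹ : Kˣ) * v.2)
  invFun v := ((ρ⁻¹ : Kˣ) * v.1, ρ * v.2)
  left_inv v := by simp
  right_inv v := by simp
  map_add' u v := by simp [mul_add]
  map_smul' a v := by simp

theorem gr_apply (ρ : Kˣ) (v : K × K) :
    (gr ρ : (K × K) ≃ₗ[F] (K × K)) v = (ρ * v.1, (ρ⁻¹ : Kˣ) * v.2) := rfl

theorem gr_mul (ρ ρ' : Kˣ) : (gr ρ : (K × K) ≃ₗ[F] (K × K)) * gr ρ' = gr (ρ * ρ') := by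
  apply LinearEquiv.ext
  intro v
  change (gr ρ : (K × K) ≃ₗ[F] (K × K)) ((gr ρ' : (K × K) ≃ₗ[F] (K × K)) v) = _
  rw [gr_apply, gr_apply, gr_apply]
  simp only [Units.val_mul, mul_inv]
  congr 1 <;> ring

theorem gr_one : (gr 1 : (K × K) ≃ₗ[F] (K × K)) = 1 := by
  apply LinearEquiv.ext
  intro v
  rw [gr_apply]
  simp

theorem gr_inv (ρ : Kˣ) : (gr ρ : (K × K) ≃ₗ[F] (K × K))⁻¹ = gr ρ⁻¹ := by
  rw [inv_eq_iff_mul_eq_one, gr_mul, mul_inv_cancel, gr_one]

theorem gr_memO (ρ : Kˣ) : (gr ρ : (K × K) ≃ₗ[F] (K × K)) ∈ OV (PP F K) := by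
  intro v
  obtain ⟨a, b⟩ := v
  rw [gr_apply, PP_apply, PP_apply]
  congr 1
  have h : (ρ : K) * ((ρ⁻¹ : Kˣ) : K) = 1 := by simp
  calc (ρ : K) * a * (((ρ⁻¹ : Kˣ) : K) * b) = ((ρ : K) * ((ρ⁻¹ : Kˣ) : K)) * (a * b) := by ring
    _ = a * b := by rw [h, one_mul]

/-- the swap. -/
noncomputable def sw : (K × K) ≃ₗ[F] (K × K) := LinearEquiv.prodComm F K K

theorem sw_apply (v : K × K) : (sw : (K × K) ≃ₗ[F] (K × K)) v = (v.2, v.1) := rfl

theorem sw_memO : (sw : (K × K) ≃ₗ[F] (K × K)) ∈ OV (PP F K) := by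
  intro v
  obtain ⟨a, b⟩ := v
  rw [sw_apply, PP_apply, PP_apply, mul_comm]

theorem gr_sq_mem (ρ : Kˣ) : (gr (ρ * ρ) : (K × K) ≃ₗ[F] (K × K)) ∈ OmV (PP F K) := by
  have h : (gr (ρ * ρ) : (K × K) ≃ₗ[F] (K × K)) = ⁅(gr ρ : (K × K) ≃ₗ[F] (K × K)), sw⁆ := by
    have h1 : (sw : (K × K) ≃ₗ[F] (K × K)) * gr ρ⁻¹ * sw⁻¹ = gr ρ := by
      rw [mul_inv_eq_iff_eq_mul]
      apply LinearEquiv.ext
      intro v
      change (sw : (K × K) ≃ₗ[F] (K × K)) ((gr ρ⁻¹ : (K × K) ≃ₗ[F] (K × K)) v)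
        = (gr ρ : (K × K) ≃ₗ[F] (K × K)) ((sw : (K × K) ≃ₗ[F] (K × K)) v)
      rw [gr_apply, sw_apply, sw_apply, gr_apply, inv_inv]
    rw [commutatorElement_def, gr_inv, mul_assoc, mul_assoc, ← mul_assoc sw, h1, gr_mul]
  rw [h]
  exact Subgroup.commutator_mem_commutator (gr_memO ρ) sw_memO

theorem gr_conj (σ : K ≃ₐ[F] K) (ρ : Kˣ) (c : K) :
    (gr ρ : (K × K) ≃ₗ[F] (K × K)) * gc σ c * (gr ρ)⁻¹ = gc σ (ρ * σ ρ * c) := by
  rw [mul_inv_eq_iff_eq_mul]
  apply LinearEquiv.ext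
  intro v
  change (gr ρ : (K × K) ≃ₗ[F] (K × K)) (gc σ c v)
    = gc σ _ ((gr ρ : (K × K) ≃ₗ[F] (K × K)) v)
  rw [gc_apply, gr_apply, gr_apply, gc_apply, Ac_apply, Ac_apply]
  have h : (ρ : K) * ((ρ⁻¹ : Kˣ) : K) = 1 := by simp
  have h' : σ (ρ : K) * σ ((ρ⁻¹ : Kˣ) : K) = 1 := by rw [← map_mul, h, map_one]
  have e1 : (ρ : K) * σ ρ * c * σ (((ρ⁻¹ : Kˣ) : K) * v.2) = ρ * (c * σ v.2) := by
    rw [map_mul]
    calc (ρ : K) * σ ρ * c * (σ ((ρ⁻¹ : Kˣ) : K) * σ v.2)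
        = (σ (ρ : K) * σ ((ρ⁻¹ : Kˣ) : K)) * (ρ * (c * σ v.2)) := by ring
      _ = _ := by rw [h', one_mul]
  have e2 : σ.symm ((ρ : K) * σ ρ * c * (((ρ⁻¹ : Kˣ) : K) * v.2)) = ρ * σ.symm (c * v.2) := by
    have : (ρ : K) * σ ρ * c * (((ρ⁻¹ : Kˣ) : K) * v.2) = σ ρ * (c * v.2) := by
      calc (ρ : K) * σ ρ * c * (((ρ⁻¹ : Kˣ) : K) * v.2)
          = ((ρ : K) * ((ρ⁻¹ : Kˣ) : K)) * (σ ρ * (c * v.2)) := by ring
        _ = _ := by rw [h, one_mul]
    rw [this, map_mul, AlgEquiv.symm_apply_apply]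
  simp only
  rw [e1, e2]
  congr 1
  ring

end

/-- OLAM. -/
theorem olam (h : OtrStmt) : OlamStmt := by
  intro F V K _ _ _ _ _ _ _ _ Q ι hι i hi0 hie h2i ρ hρ d hd
  classical
  haveI : Finite K := Module.finite_of_finite F
  haveI : Fintype F := Fintype.ofFinite F
  haveI : Fintype K := Fintype.ofFinite K
  haveI : Algebra.IsAlgebraic F K := inferInstance
  obtain ⟨r, hr⟩ := h F (K × K) V (PP F K) Q ι (PP_ND F K)
    (fun u => by obtain ⟨a, b⟩ := u; rw [hι, PP_apply]) d hd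
  -- the Frobenius
  let φ : K ≃ₐ[F] K := FiniteField.frobeniusAlgEquivOfAlgebraic F K
  have hφ1 : ∀ x : K, φ x = x ^ (Nat.card F) := by
    intro x
    rw [Nat.card_eq_fintype_card]
    rfl
  have hφ : ∀ (n : ℕ) (x : K), (φ ^ n) x = x ^ (Nat.card F ^ n) := by
    intro n
    induction n with
    | zero => intro x; simp
    | succ n ih =>
      intro x
      rw [pow_succ', AlgEquiv.mul_apply, ih, hφ1, ← pow_mul, pow_succ]
  let σ : K ≃ₐ[F] K := φ ^ i
  have hσ : ∀ x, σ x = x ^ (Nat.card F ^ i) := hφ i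
  let u : Kˣ := Units.mk0 ρ hρ
  -- the Engel iteration
  have hy : (gr (u * u) : (K × K) ≃ₗ[F] (K × K))⁻¹ ∈ OmV (PP F K) :=
    Subgroup.inv_mem _ (gr_sq_mem u)
  have hmu : ((u * u : Kˣ) : K) * σ ((u * u : Kˣ) : K) = ρ ^ (2 * (1 + Nat.card F ^ i)) := by
    rw [hσ]
    have : ((u * u : Kˣ) : K) = ρ ^ 2 := by
      rw [Units.val_mul, sq]
      rfl
    rw [this, ← pow_mul, ← pow_add]
    congr 1
    ring
  set μ : K := ρ ^ (2 * (1 + Nat.card F ^ i)) with hμ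
  have hstep : ∀ c : K, eng ((gr (u * u) : (K × K) ≃ₗ[F] (K × K))⁻¹) (gc σ c)
      = gc σ ((μ - 1) * c) := by
    intro c
    unfold eng
    rw [inv_inv, gc_inv, mul_assoc, mul_assoc, ← mul_assoc (gr (u * u)), gr_conj, hmu, gc_mul]
    congr 1
    ring
  have hit : ∀ n : ℕ, (eng ((gr (u * u) : (K × K) ≃ₗ[F] (K × K))⁻¹))^[n] (gc σ 1)
      = gc σ ((μ - 1) ^ n) := by
    intro n
    induction n with
    | zero => simp
    | succ n ih =>
      rw [Function.iterate_succ', Function.comp_apply, ih, hstep, ← pow_succ']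
  obtain ⟨s, hs⟩ := hr (gc σ 1) (gc_mem σ 1) _ hy
  have hs1 : s = 1 := by
    have := hs (1, 0)
    rw [hit, hit, gc_apply, gc_apply] at this
    simp only [map_zero, add_zero, Prod.smul_mk, smul_zero, Prod.mk.injEq, and_true] at this
    have h3 : (algebraMap F K) s = 1 := by
      rw [Algebra.algebraMap_eq_smul_one]
      exact this.symm
    exact (algebraMap F K).injective (by rw [h3, map_one])
  refine ⟨r, ?_⟩
  by_contra hne
  have hc : ∀ b : K, Ac σ ((μ - 1) ^ (r + d) - (μ - 1) ^ r) b = 0 := by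
    intro b
    have := hs (0, b)
    rw [hit, hit, gc_apply, gc_apply, hs1, one_smul] at this
    have h4 := congrArg Prod.fst this
    simp only [zero_add] at h4
    have h5 : Ac σ ((μ - 1) ^ (r + d) - (μ - 1) ^ r) b
        = Ac σ ((μ - 1) ^ (r + d)) b - Ac σ ((μ - 1) ^ r) b := by
      rw [Ac_apply, Ac_apply, Ac_apply, sub_mul, sub_mul, map_sub]
      ring
    rw [h5, h4, sub_self]
  set c : K := (μ - 1) ^ (r + d) - (μ - 1) ^ r with hcdef
  have hc0 : c ≠ 0 := sub_ne_zero.mpr hne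
  have hc1 : c = σ.symm c := by
    have := hc 1
    rw [Ac_apply, map_one, mul_one, sub_eq_zero] at this
    exact this
  have hss : ∀ b : K, σ b = σ.symm b := by
    intro b
    have := hc b
    rw [Ac_apply, map_mul, ← hc1, ← mul_sub] at this
    exact sub_eq_zero.mp ((mul_eq_zero.mp this).resolve_left hc0)
  have hφ2 : φ ^ (2 * i) = 1 := by
    apply AlgEquiv.ext
    intro b
    have : φ ^ (2 * i) = σ * σ := by
      rw [two_mul, pow_add]
    rw [this, AlgEquiv.mul_apply, hss b, AlgEquiv.apply_symm_apply]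
    rfl
  have hdvd : Module.finrank F K ∣ 2 * i := by
    rw [← FiniteField.orderOf_frobeniusAlgEquivOfAlgebraic F K]
    exact orderOf_dvd_of_pow_eq_one hφ2
  obtain ⟨t, ht⟩ := hdvd
  have ht1 : t = 1 := by
    rcases Nat.lt_or_ge t 2 with h6 | h6
    · interval_cases t
      · omega
      · rfl
    · have : Module.finrank F K * 2 ≤ Module.finrank F K * t := Nat.mul_le_mul_left _ h6
      omega
  rw [ht1, mul_one] at ht
  exact h2i ht

end Pool.Agent.Eng.H37
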